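import Pool.Agent.H23.DF.TargetsG
import Pool.Agent.H55.DM.Q2

/-!
# The mean square over families of boxes and cosets, friable conductors: row Q2
-/

set_option autoImplicit false

open NumberField NumberField.InfinitePlace MeasureTheory

namespace Pool.Agent.H33.DF.Q2

open Pool.Agent.H25.HK Pool.Agent.H23.LB Pool.Agent.H23.LC Pool.Agent.H23.DF
open Pool.Agent.H23.DM (lg5 h5 Fq Mz cm SQ MP OQ de SpE SpG FP PhZ PY LoC Lab QB Clq)
open Pool.Agent.H27.TM (Cls)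
open Pool.Agent.H29.DW (Rl Pos rv)
open Pool.Agent.H29.TC (cq)
open Pool.Agent.H31.SW (DD PP dK Pf)
open Pool.Agent.H63.SWL (PP_pos PP_nonneg one_le_PP PP_mono PP_mul)
open Pool.Agent.H55.DM.Q2 (loc QB_le)

/-- (Q2) the mean square over a family of boxes at a fixed position. -/
theorem pf_Q2 (hQ1 : F_Q1) (hCN : Pool.Agent.H23.SM.S_CN) : F_Q2 := by
  classical
  intro n ε p hn hε hp
  obtain ⟨C₁, hC₁, h1⟩ := hQ1 n ε p hn hε hp
  obtain ⟨C₂, hC₂, h2⟩ := hCN n hn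
  refine ⟨C₁ * C₂, by positivity, ?_⟩
  intro K _ _ hK l s k κ Y θ M x₀ y ω ρ H τ ι J bl η γ c D hSK hFP hω hρM hKq hFM hH hcls hlab hspc
    hD
  obtain ⟨G, hG⟩ : ∃ G : InfinitePlace K → ℝ, G = fun v => min (H v) (τ v ^ (1 / 3 : ℝ)) :=
    ⟨_, rfl⟩
  have hl : ∀ v, 1 ≤ G v ∧ G v ^ 3 ≤ τ v := fun v => by
    rw [hG]
    have := loc (H v) (τ v) (hH v).1 (hH v).2
    exact ⟨this.1, this.2.1⟩
  have hGH : ∀ v, G v ≤ H v := fun v => by rw [hG]; exact min_le_left _ _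
  have hex : ∀ b₀ : ℕ, ∃ sb : ι → ℕ,
      ((((J.filter fun j => bl j = b₀).image sb).card : ℕ) : ℝ) ≤ C₂ * (PP H / PP G) ∧
      ∀ i ∈ J.filter (fun j => bl j = b₀), ∀ j ∈ J.filter (fun j => bl j = b₀),
        sb i = sb j → ∀ v, ‖c i v - c j v‖ ≤ 2 * G v := fun b₀ =>
    h2 K hK ι (J.filter fun j => bl j = b₀) c G H (fun v => ⟨(hl v).1, hGH v⟩)
      (fun j hj v => (hcls j (Finset.mem_filter.mp hj).1).real v) (fun i hi j hj v => by
        rw [Finset.mem_filter] at hi hj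
        exact (hlab i hi.1 j hj.1 (hi.2.trans hj.2.symm)).2 v)
  choose sb hsb1 hsb2 using hex
  obtain ⟨bl', hbl'⟩ : ∃ bl' : ι → ℕ, bl' = fun i => Nat.pair (bl i) (sb (bl i) i) := ⟨_, rfl⟩
  have hlab' : Lab κ J bl' η c G := by
    intro i hi j hj hij
    rw [hbl'] at hij
    have h3 := Nat.pair_eq_pair.mp hij
    refine ⟨(hlab i hi j hj h3.1).1, ?_⟩
    refine hsb2 (bl i) i (Finset.mem_filter.mpr ⟨hi, rfl⟩) j
      (Finset.mem_filter.mpr ⟨hj, h3.1.symm⟩) ?_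
    rw [h3.2, h3.1]
  have hcard : ((J.image bl').card : ℝ) ≤
      ((J.image bl).card : ℝ) * (C₂ * (PP H / PP G)) := by
    have h3 : J.image bl' ⊆ (J.image bl).biUnion fun b₀ =>
        ((J.filter fun j => bl j = b₀).image (sb b₀)).image (Nat.pair b₀) := by
      intro x hx
      rw [Finset.mem_image] at hx
      obtain ⟨i, hi, rfl⟩ := hx
      rw [Finset.mem_biUnion]
      refine ⟨bl i, Finset.mem_image_of_mem bl hi, ?_⟩
      rw [hbl']
      exact Finset.mem_image_of_mem _ (Finset.mem_image_of_mem _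
        (Finset.mem_filter.mpr ⟨hi, rfl⟩))
    have h4 : ((J.image bl').card : ℝ) ≤ ∑ b₀ ∈ J.image bl,
        ((((J.filter fun j => bl j = b₀).image (sb b₀)).card : ℕ) : ℝ) := by
      have h5 := (Finset.card_le_card h3).trans Finset.card_biUnion_le
      have h6 : ∑ b₀ ∈ J.image bl, (((J.filter fun j => bl j = b₀).image (sb b₀)).image
          (Nat.pair b₀)).card ≤
          ∑ b₀ ∈ J.image bl, ((J.filter fun j => bl j = b₀).image (sb b₀)).card :=
        Finset.sum_le_sum fun _ _ => Finset.card_image_le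
      exact_mod_cast h5.trans h6
    refine h4.trans ?_
    calc ∑ b₀ ∈ J.image bl, ((((J.filter fun j => bl j = b₀).image (sb b₀)).card : ℕ) : ℝ) ≤
          ∑ _b₀ ∈ J.image bl, C₂ * (PP H / PP G) := Finset.sum_le_sum fun b₀ _ => hsb1 b₀
      _ = _ := by rw [Finset.sum_const, nsmul_eq_mul]
  have h3 := h1 K hK l s k κ Y θ M x₀ y ω ρ G τ ι J bl' η γ c D hSK hFP hω hρM hKq hFM hl hcls
    hlab' hspc hD
  refine h3.trans ?_
  have hQB : QB (s * k) κ τ G ((J.image bl').card : ℝ) ≤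
      C₂ * QB (s * k) κ τ H ((J.image bl).card : ℝ) := by
    rw [hG] at hcard ⊢
    exact QB_le (s * k) κ τ H hH _ _ C₂ (Nat.cast_nonneg _) hC₂ hcard
  have hNk : 0 ≤ Nf K (s * k) := by unfold Nf; exact Nat.cast_nonneg _
  have hY : 0 ≤ Y := by linarith [hSK.one]
  have hNr : 0 ≤ Nf K k.radical := by unfold Nf; exact Nat.cast_nonneg _
  have hNl : 0 ≤ Nf K l := by unfold Nf; exact Nat.cast_nonneg _
  have hτ0 : 0 ≤ PP τ := PP_nonneg fun v => by linarith [(hH v).2]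
  have hDD : 0 ≤ DD M y := by
    unfold DD
    have : (0 : ℝ) ≤ (FractionalIdeal.absNorm M : ℝ) := by
      exact_mod_cast FractionalIdeal.absNorm_nonneg M
    positivity
  have hE : 0 ≤ (1 + DD M y / Nf K l) * (1 + DD M y / Nf K l / (Nf K (s * k) * PP τ)) ^ (3 / 2 : ℝ) := by
    positivity
  obtain ⟨E, hEe⟩ : ∃ E : ℝ, E = (1 + DD M y / Nf K l) *
    (1 + DD M y / Nf K l / (Nf K (s * k) * PP τ)) ^ (3 / 2 : ℝ) := ⟨_, rfl⟩
  rw [← hEe] at hE ⊢
  have hX : 0 ≤ D * dK K ^ 2 * (Nf K k.radical * Y) ^ 4 *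
    (Nf K (s * k) * PP τ) ^ ε := by
    have h5 : 0 ≤ D := by linarith
    have h6 : 0 ≤ (Nf K (s * k) * PP τ) ^ ε := Real.rpow_nonneg (mul_nonneg hNk hτ0) _
    positivity
  obtain ⟨X, hXe⟩ : ∃ X : ℝ, X = D * dK K ^ 2 * (Nf K k.radical * Y) ^ 4 *
    (Nf K (s * k) * PP τ) ^ ε :=
    ⟨_, rfl⟩
  rw [← hXe] at hX ⊢
  calc C₁ * (X * QB (s * k) κ τ G ((J.image bl').card : ℝ) * E) ≤
        C₁ * (X * (C₂ * QB (s * k) κ τ H ((J.image bl).card : ℝ)) * E) := by gcongr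
    _ = _ := by ring

end Pool.Agent.H33.DF.Q2
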