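import Pool.Agent.H23.DF.TargetsL
import Pool.Agent.H23.DF.TargetsG
import Pool.Agent.H27.TM.TargetsG

/-!
# Sums over spaced frequencies, friable conductors: row SM
-/

set_option autoImplicit false

open NumberField NumberField.InfinitePlace
open scoped nonZeroDivisors

namespace Pool.Agent.H33.DF.SM

open Pool.Agent.H25.HK Pool.Agent.H23.LB Pool.Agent.H23.LC Pool.Agent.H23.DF
open Pool.Agent.H23.DM (SpG)
open Pool.Agent.H27.TM (Cls Spc th1)
open Pool.Agent.H29.TC (dvs)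
open Pool.Agent.H29.DW (dg Rl rv Pos)
open Pool.Agent.H31.SW (PP DD dK Pf)

theorem one_le_Nf {K : Type} [Field K] [NumberField K] {I : Ideal (𝓞 K)} (hI : I ≠ ⊥) :
    1 ≤ Nf K I := by
  unfold Nf
  have h : Ideal.absNorm I ≠ 0 := by
    rw [Ne, Ideal.absNorm_eq_zero_iff]
    exact hI
  exact_mod_cast Nat.one_le_iff_ne_zero.mpr h

theorem Nf_mul {K : Type} [Field K] [NumberField K] (I J : Ideal (𝓞 K)) :
    Nf K (I * J) = Nf K I * Nf K J := by
  unfold Nf
  rw [map_mul]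
  push_cast
  rfl

/-- the number of the classes modulo `b` in a coset of `c` -/
theorem card_classes {K : Type} [Field K] [NumberField K] (b c : Ideal (𝓞 K))
    (hb : b ≠ ⊥) (hbc : b ≤ c) (S : Finset (𝓞 K ⧸ b)) (x₀ : 𝓞 K)
    (hS : ∀ q ∈ S, ∃ x : 𝓞 K, Ideal.Quotient.mk b x = q ∧ x₀ - x ∈ c) :
    (S.card : ℝ) ≤ Nf K b / Nf K c := by
  classical
  have hc : c ≠ ⊥ := by
    intro h
    exact hb (le_bot_iff.mp (hbc.trans_eq h))
  have hfin : Finite (𝓞 K ⧸ b) := Ideal.finiteQuotientOfFreeOfNeBot b hb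
  have hNc : 0 < Nf K c := by linarith [one_le_Nf hc]
  rw [le_div_iff₀ hNc]
  have h1 : S.card ≤ Nat.card (c.map (Ideal.Quotient.mk b)) := by
    have hinj : (S.image fun q => Ideal.Quotient.mk b x₀ - q).card = S.card :=
      Finset.card_image_of_injective _ fun x y h => sub_right_injective h
    rw [← hinj]
    have hsub : ((S.image fun q => Ideal.Quotient.mk b x₀ - q : Finset (𝓞 K ⧸ b)) :
        Set (𝓞 K ⧸ b)) ⊆ ((c.map (Ideal.Quotient.mk b) : Ideal (𝓞 K ⧸ b)) :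
          Set (𝓞 K ⧸ b)) := by
      intro q hq
      rw [Finset.mem_coe, Finset.mem_image] at hq
      obtain ⟨q', hq', rfl⟩ := hq
      obtain ⟨x, rfl, hx⟩ := hS q' hq'
      rw [← map_sub]
      exact Ideal.mem_map_of_mem _ hx
    calc (S.image fun q => Ideal.Quotient.mk b x₀ - q).card =
        ((S.image fun q => Ideal.Quotient.mk b x₀ - q : Finset (𝓞 K ⧸ b)) :
          Set (𝓞 K ⧸ b)).ncard := (Set.ncard_coe_finset _).symm
      _ ≤ ((c.map (Ideal.Quotient.mk b) : Ideal (𝓞 K ⧸ b)) : Set (𝓞 K ⧸ b)).ncard :=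
          Set.ncard_le_ncard hsub (Set.toFinite _)
      _ = Nat.card (c.map (Ideal.Quotient.mk b)) := rfl
  have h2 : Nat.card (𝓞 K ⧸ b) = Nat.card (c.map (Ideal.Quotient.mk b)) * Nat.card (𝓞 K ⧸ c) := by
    rw [Submodule.card_eq_card_quotient_mul_card (c.map (Ideal.Quotient.mk b))]
    congr 1
    exact Nat.card_congr (DoubleQuot.quotQuotEquivQuotOfLE hbc).toEquiv
  have h3 : S.card * Ideal.absNorm c ≤ Ideal.absNorm b := by
    have e1 : Ideal.absNorm b = Nat.card (𝓞 K ⧸ b) := Ideal.absNorm_apply b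
    have e2 : Ideal.absNorm c = Nat.card (𝓞 K ⧸ c) := Ideal.absNorm_apply c
    rw [e1, e2, h2]
    exact Nat.mul_le_mul_right _ h1
  unfold Nf
  exact_mod_cast h3

/-- `c - c'` small: sums over the frequencies with differences in an ideal -/
theorem classSum {K : Type} [Field K] [NumberField K] {C : ℝ}
    (hSM : ∀ (ι : Type) (I : Finset ι) (c : ι → InfinitePlace K → ℂ)
      (G α : InfinitePlace K → ℝ) (D : ℝ), (∀ j ∈ I, ∀ v, Rl (rv v) (c j v)) →
      (∀ v, 0 < α v ∧ 0 < G v ∧ α v * G v ≤ 1) → Spc I c G D → ∀ i ∈ I,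
      ∑ j ∈ I, ∏ v : InfinitePlace K, th1 α (c i) (c j) v ^ (-(4 : ℝ)) ≤ C * D / (PP α * PP G))
    (b c₀ : Ideal (𝓞 K)) (hb : b ≠ ⊥) (hbc : b ≤ c₀) (ι : Type) (I : Finset ι) (γ : ι → 𝓞 K)
    (c : ι → InfinitePlace K → ℂ) (G α : InfinitePlace K → ℝ) (D : ℝ)
    (hR : ∀ j ∈ I, ∀ v, Rl (rv v) (c j v)) (hG : ∀ v, 0 < α v ∧ 0 < G v ∧ α v * G v ≤ 1)
    (hS : SpG I b γ c G D) (i : ι) (hi : i ∈ I) (I' : Finset ι) (hI : I' ⊆ I)
    (hI' : ∀ j ∈ I', γ i - γ j ∈ c₀) :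
    ∑ j ∈ I', ∏ v : InfinitePlace K, th1 α (c i) (c j) v ^ (-(4 : ℝ)) ≤
      C * (Nf K b / Nf K c₀ * D) / (PP α * PP G) := by
  classical
  have hD : 0 ≤ D := le_trans (Nat.cast_nonneg _) (hS (γ i) (c i))
  obtain ⟨I₂, hI₂⟩ : ∃ I₂ : Finset ι, I₂ = I.filter fun j => γ i - γ j ∈ c₀ := ⟨_, rfl⟩
  have hsub : I' ⊆ I₂ := by
    intro j hj
    rw [hI₂, Finset.mem_filter]
    exact ⟨hI hj, hI' j hj⟩
  have hi₂ : i ∈ I₂ := by
    rw [hI₂, Finset.mem_filter]
    exact ⟨hi, by rw [sub_self]; exact Submodule.zero_mem _⟩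
  have hsp : Spc I₂ c G (Nf K b / Nf K c₀ * D) := by
    intro z
    obtain ⟨F, hF⟩ : ∃ F : Finset ι, F = I₂.filter fun j => ∀ v, ‖c j v - z v‖ ≤ G v := ⟨_, rfl⟩
    have hcard : (F.card : ℝ) = ∑ q ∈ F.image (fun j => Ideal.Quotient.mk b (γ j)),
        ((F.filter fun j => Ideal.Quotient.mk b (γ j) = q).card : ℝ) := by
      have := Finset.card_eq_sum_card_image (fun j => Ideal.Quotient.mk b (γ j)) F
      exact_mod_cast this
    have hcl : ∀ q ∈ F.image (fun j => Ideal.Quotient.mk b (γ j)),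
        ((F.filter fun j => Ideal.Quotient.mk b (γ j) = q).card : ℝ) ≤ D := by
      intro q hq
      obtain ⟨j₁, hj₁, rfl⟩ := Finset.mem_image.mp hq
      refine le_trans ?_ (hS (γ j₁) z)
      norm_cast
      apply Finset.card_le_card
      intro j hj
      rw [Finset.mem_filter] at hj ⊢
      obtain ⟨hj1, hj2⟩ := hj
      rw [hF, Finset.mem_filter, hI₂, Finset.mem_filter] at hj1
      exact ⟨hj1.1.1, Ideal.Quotient.eq.mp hj2, hj1.2⟩
    have hnum : ((F.image (fun j => Ideal.Quotient.mk b (γ j))).card : ℝ) ≤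
        Nf K b / Nf K c₀ := by
      apply card_classes b c₀ hb hbc _ (γ i)
      intro q hq
      obtain ⟨j, hj, rfl⟩ := Finset.mem_image.mp hq
      rw [hF, Finset.mem_filter, hI₂, Finset.mem_filter] at hj
      exact ⟨γ j, rfl, hj.1.2⟩
    have hgoal : (F.card : ℝ) ≤ Nf K b / Nf K c₀ * D := by
      calc (F.card : ℝ) = ∑ q ∈ F.image (fun j => Ideal.Quotient.mk b (γ j)),
            ((F.filter fun j => Ideal.Quotient.mk b (γ j) = q).card : ℝ) := hcard
        _ ≤ ∑ _q ∈ F.image (fun j => Ideal.Quotient.mk b (γ j)), D := Finset.sum_le_sum hcl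
        _ = ((F.image (fun j => Ideal.Quotient.mk b (γ j))).card : ℝ) * D := by
            rw [Finset.sum_const, nsmul_eq_mul]
        _ ≤ Nf K b / Nf K c₀ * D := mul_le_mul_of_nonneg_right hnum hD
    rw [hF] at hgoal
    exact hgoal
  refine le_trans ?_ (hSM ι I₂ c G α (Nf K b / Nf K c₀ * D) (fun j hj => hR j (by
    rw [hI₂, Finset.mem_filter] at hj
    exact hj.1)) hG hsp i hi₂)
  refine Finset.sum_le_sum_of_subset_of_nonneg hsub fun j _ _ => ?_
  refine Finset.prod_nonneg fun v _ => Real.rpow_nonneg ?_ _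
  unfold th1
  have := (hG v).1
  positivity

/-- the ideals -/
theorem ideals {K : Type} [Field K] [NumberField K] {l s k κ b κ₃ b₃ e k' se s' s'' c d :
    Ideal (𝓞 K)} {Y : ℝ} (hSK : SK l s k Y) (hCn : Cn s k κ b κ₃ b₃ Y) (hke : k = e * k')
    (hss : s = se * s') (heκ : e ≤ κ ⊔ k) (hsκ : se ≤ κ ⊔ s) (he : e ≠ ⊥)
    (hcop : se ⊔ s' * k = ⊤) (hrad : s'.radical = s') (hs'' : s' = (s' ⊔ κ₃) * s'')
    (hb₃ : b₃ ≤ s'') (hc : ∀ x : 𝓞 K, x ∈ c ↔ ∀ t ∈ k.radical, x * t ∈ k')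
    (hd : s' ⊔ κ₃ ≤ d) :
    b ≤ s'' * (c * d) ∧ ∀ x ∈ b₃, x ∈ c → x ∈ d → x ∈ s'' * (c * d) := by
  have hk'c : k' ≤ c := fun x hx => (hc x).mpr fun t _ => Ideal.mul_mem_right _ _ hx
  have hkk' : k ≤ k' := by
    rw [hke]
    exact Ideal.mul_le_right
  have hss' : s ≤ s' := by
    rw [hss]
    exact Ideal.mul_le_right
  have hs's'' : s' ≤ s'' := by
    conv_lhs => rw [hs'']
    exact Ideal.mul_le_right
  have hs'd : s' ≤ d := le_sup_left.trans hd
  -- coprimality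
  have h1 : s'' ⊔ d = ⊤ := by
    rw [Ideal.eq_top_iff_one]
    by_contra hne
    have hne' : s'' ⊔ d ≠ ⊤ := fun h => hne ((Ideal.eq_top_iff_one _).mp h)
    obtain ⟨P, hP, hle⟩ := Ideal.exists_le_maximal _ hne'
    have hPs'' : s'' ≤ P := le_sup_left.trans hle
    have hPd : d ≤ P := le_sup_right.trans hle
    have hs'0 : s' ≠ ⊥ := by
      rintro rfl
      exact hSK.lk.k_ne (by rw [hss, Ideal.mul_bot, Ideal.bot_mul])
    have hsq : s' ≤ P * P := by
      rw [hs'']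
      exact Ideal.mul_mono (hd.trans hPd) hPs''
    -- squarefree
    obtain ⟨Q, hQ⟩ := Ideal.dvd_iff_le.mpr hsq
    have hP0 : P ≠ ⊥ := by
      rintro rfl
      exact hs'0 (le_bot_iff.mp (hsq.trans (by simp)))
    have hle2 : P * Q ≤ s' := by
      conv_rhs => rw [← hrad]
      intro x hx
      refine ⟨2, ?_⟩
      rw [hQ, pow_two]
      have h3 : x * x ∈ P * Q * (P * Q) := Ideal.mul_mem_mul hx hx
      have h4 : P * Q * (P * Q) ≤ P * P * Q := by
        calc P * Q * (P * Q) = P * P * Q * Q := by ring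
          _ ≤ P * P * Q := Ideal.mul_le_left
      exact h4 h3
    have hPQ0 : P * Q ≠ ⊥ := by
      intro h
      apply hs'0
      rw [hQ, mul_assoc, h, Ideal.mul_bot]
    have h5 : P * Q ≤ P * (P * Q) := by
      rw [← mul_assoc, ← hQ]
      exact hle2
    have h6 : P * (P * Q) ≤ 1 * (P * Q) := by
      rw [one_mul]
      exact Ideal.mul_le_right
    have h7 : P * (P * Q) = 1 * (P * Q) := le_antisymm h6 (by rw [one_mul]; exact h5)
    have h8 : P = 1 := mul_right_cancel₀ hPQ0 h7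
    exact hP.ne_top (h8.trans Ideal.one_eq_top)
  have h2 : ∀ a a' : Ideal (𝓞 K), s ≤ a → k ≤ a' → a ⊔ a' = ⊤ := fun a a' ha ha' =>
    top_le_iff.mp (hSK.cop ▸ sup_le_sup ha ha')
  have hcd : c ⊔ d = ⊤ := by
    rw [sup_comm]
    exact h2 d c (hss'.trans hs'd) (hkk'.trans hk'c)
  have hsc : s'' ⊔ c = ⊤ := h2 s'' c (hss'.trans hs's'') (hkk'.trans hk'c)
  have hprod : s'' * (c * d) = s'' ⊓ (c ⊓ d) := by
    have e1 : c * d = c ⊓ d := Ideal.mul_eq_inf_of_coprime hcd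
    rw [← e1]
    refine Ideal.mul_eq_inf_of_coprime ?_
    exact Ideal.sup_mul_eq_of_coprime_left hsc |>.trans h1
  -- `b ≤ s'`
  have hbs' : b ≤ s' := by
    have h3 : κ ⊔ s' = ⊤ := by
      have h4 : se ⊔ s' = ⊤ := top_le_iff.mp (hcop ▸ sup_le_sup le_rfl Ideal.mul_le_left)
      refine top_le_iff.mp (h4 ▸ sup_le ?_ le_sup_right)
      exact hsκ.trans (sup_le_sup le_rfl hss')
    have h5 : b * (κ ⊔ s') ≤ s' := by
      rw [Ideal.mul_sup]
      refine sup_le ?_ Ideal.mul_le_right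
      rw [mul_comm, ← hCn.b_eq]
      exact Ideal.mul_le_left.trans hss'
    rw [h3, Ideal.mul_top] at h5
    exact h5
  have hbk' : b ≤ k' := by
    have h3 : e * b ≤ e * k' := by
      rw [← hke]
      calc e * b ≤ (κ ⊔ k) * b := Ideal.mul_mono_left heκ
        _ = κ * b ⊔ k * b := Ideal.sup_mul _ _ _
        _ ≤ k := by
          refine sup_le ?_ Ideal.mul_le_left
          rw [← hCn.b_eq]
          exact Ideal.mul_le_right
    obtain ⟨Q, hQ⟩ := Ideal.dvd_iff_le.mpr h3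
    rw [mul_assoc] at hQ
    have h4 := mul_left_cancel₀ he hQ
    rw [h4]
    exact Ideal.mul_le_left
  rw [hprod]
  exact ⟨le_inf (hbs'.trans hs's'') (le_inf (hbk'.trans hk'c) (hbs'.trans hs'd)),
    fun x h3 h4 h5 => ⟨hb₃ h3, h4, h5⟩⟩

theorem mem_dvs {K : Type} [Field K] [NumberField K] {k e : Ideal (𝓞 K)} (hk : k ≠ ⊥)
    (h : k ≤ e) : e ∈ dvs K k := by
  have hfin : {e : Ideal (𝓞 K) | k ≤ e}.Finite := by
    have h1 := Ideal.finite_setOfPred_absNorm_le (S := 𝓞 K) (Ideal.absNorm k)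
    refine h1.subset fun a ha => ?_
    have h2 : Ideal.absNorm a ∣ Ideal.absNorm k := Ideal.absNorm_dvd_absNorm_of_le ha
    refine Nat.le_of_dvd (Nat.pos_of_ne_zero ?_) h2
    rw [Ne, Ideal.absNorm_eq_zero_iff]
    exact hk
  unfold dvs
  rw [dif_pos hfin]
  exact hfin.mem_toFinset.mpr h

/-- SM -/
theorem pf_SM (hSM : Pool.Agent.H27.TM.M_SM) (hID : F_ID) : F_SM := by
  classical
  intro n hn
  obtain ⟨C, hC, hSM⟩ := hSM n hn
  refine ⟨C, hC, ?_⟩
  intro K _ _ hK l s k κ b κ₃ b₃ e k' se s' Y ι I γ c G α D hSK hCn hke hss heκ hsκ hR hG hγ hS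
    i hi
  obtain ⟨he, hk', hse, hs', hcop, hrad, hNk, hNs, hNsk, -, -, -, -, -, -, -, ⟨s'', hs'', hb₃⟩,
    c₁, hc₁, hNc⟩ := hID K l s k κ b κ₃ b₃ e k' se s' Y hSK hCn hke hss heκ hsκ
  have hsk0 : s * k ≠ ⊥ := hSK.lk.k_ne
  have hs0 : s ≠ ⊥ := by
    rintro rfl
    exact hsk0 (Ideal.bot_mul _)
  have hκ0 : κ ≠ ⊥ := by
    rintro rfl
    exact hsk0 (by rw [hCn.b_eq]; exact Ideal.bot_mul _)
  have hb0 : b ≠ ⊥ := by
    rintro rfl
    exact hsk0 (by rw [hCn.b_eq]; exact Ideal.mul_bot _)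
  have hs₃0 : s' ⊔ κ₃ ≠ ⊥ := by
    intro h
    apply hs'
    rw [hs'', h]
    exact Ideal.bot_mul _
  have hs''0 : s'' ≠ ⊥ := by
    rintro rfl
    exact hs' (by rw [hs'']; exact Ideal.mul_bot _)
  have hc₁0 : c₁ ≠ ⊥ := by
    intro h
    have : k' ≤ c₁ := fun x hx => (hc₁ x).mpr fun t _ => Ideal.mul_mem_right _ _ hx
    exact hk' (le_bot_iff.mp (this.trans_eq h))
  have hD : 0 ≤ D := le_trans (Nat.cast_nonneg _) (hS (γ i) (c i))
  have hPP : 0 < PP α * PP G := by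
    unfold Pool.Agent.H31.SW.PP
    apply mul_pos
    · exact Finset.prod_pos fun v _ => pow_pos (hG v).1 _
    · exact Finset.prod_pos fun v _ => pow_pos (hG v).2.1 _
  obtain ⟨P, hP⟩ : ∃ P : ι → ℝ, P = fun j => ∏ v : InfinitePlace K,
    th1 α (c i) (c j) v ^ (-(4 : ℝ)) := ⟨_, rfl⟩
  obtain ⟨dj, hdj⟩ : ∃ dj : ι → Ideal (𝓞 K), dj = fun j =>
    (s' ⊔ κ₃) ⊔ Ideal.span {γ i - γ j} := ⟨_, rfl⟩
  obtain ⟨I', hI'⟩ : ∃ I' : Finset ι, I' = I.filter fun j => ∀ t ∈ k.radical,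
    (γ i - γ j) * t ∈ k' := ⟨_, rfl⟩
  have hstart : ∑ j ∈ I, ww k.radical k' (s' ⊔ κ₃) γ i j *
      ∏ v : InfinitePlace K, th1 α (c i) (c j) v ^ (-(4 : ℝ)) =
      ∑ j ∈ I', Nf K (dj j) / Nf K (s' ⊔ κ₃) * P j := by
    rw [hI', Finset.sum_filter]
    refine Finset.sum_congr rfl fun j _ => ?_
    unfold ww
    rw [hP, hdj]
    split_ifs with h
    · rfl
    · rw [zero_mul]
  rw [hstart, ← Finset.sum_fiberwise_of_maps_to (t := I'.image dj)
    (fun j hj => Finset.mem_image_of_mem _ hj)]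
  have hfib : ∀ d ∈ I'.image dj, ∑ j ∈ I' with dj j = d,
      Nf K (dj j) / Nf K (s' ⊔ κ₃) * P j ≤
      C * (D * (Nf K k.radical * (Nf K e * Nf K se / Nf K κ))) / (PP α * PP G) := by
    intro d hd
    have hle : s' ⊔ κ₃ ≤ d := by
      obtain ⟨j, _, rfl⟩ := Finset.mem_image.mp hd
      rw [hdj]
      exact le_sup_left
    have hd0 : d ≠ ⊥ := fun h => hs₃0 (le_bot_iff.mp (hle.trans_eq h))
    obtain ⟨hbc, hmem⟩ := ideals hSK hCn hke hss heκ hsκ he hcop hrad hs'' hb₃ hc₁ hle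
    have h1 : ∑ j ∈ I' with dj j = d, Nf K (dj j) / Nf K (s' ⊔ κ₃) * P j =
        Nf K d / Nf K (s' ⊔ κ₃) * ∑ j ∈ I' with dj j = d, P j := by
      rw [Finset.mul_sum]
      refine Finset.sum_congr rfl fun j hj => ?_
      rw [(Finset.mem_filter.mp hj).2]
    rw [h1]
    have h2 : ∑ j ∈ I' with dj j = d, P j ≤
        C * (Nf K b / Nf K (s'' * (c₁ * d)) * D) / (PP α * PP G) := by
      rw [hP]
      refine classSum (hSM K hK) b _ hb0 hbc ι I γ c G α D hR hG hS i hi _ ?_ ?_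
      · intro j hj
        rw [Finset.mem_filter, hI', Finset.mem_filter] at hj
        exact hj.1.1
      · intro j hj
        rw [Finset.mem_filter, hI', Finset.mem_filter] at hj
        refine hmem _ (hγ i hi j hj.1.1) ((hc₁ _).mpr hj.1.2) ?_
        rw [← hj.2, hdj]
        exact Ideal.mem_sup_right (Ideal.mem_span_singleton_self _)
    have p1 : 0 < Nf K d := by linarith [one_le_Nf hd0]
    have p2 : 0 < Nf K (s' ⊔ κ₃) := by linarith [one_le_Nf hs₃0]
    have p3 : 0 < Nf K s'' := by linarith [one_le_Nf hs''0]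
    have p4 : 0 < Nf K c₁ := by linarith [one_le_Nf hc₁0]
    have p5 : 0 < Nf K κ := by linarith [one_le_Nf hκ0]
    have p6 : 0 < Nf K e := by linarith [one_le_Nf he]
    have p7 : 0 < Nf K se := by linarith [one_le_Nf hse]
    have hNb : Nf K κ * Nf K b = Nf K s * Nf K k := by
      rw [← Nf_mul, ← hCn.b_eq, hNsk]
    have hNs' : Nf K s' = Nf K (s' ⊔ κ₃) * Nf K s'' := by
      conv_lhs => rw [hs'']
      rw [Nf_mul]
    have h3 : Nf K d / Nf K (s' ⊔ κ₃) * (Nf K b / Nf K (s'' * (c₁ * d))) ≤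
        Nf K k.radical * (Nf K e * Nf K se / Nf K κ) := by
      rw [Nf_mul, Nf_mul]
      have h4 : Nf K d / Nf K (s' ⊔ κ₃) * (Nf K b / (Nf K s'' * (Nf K c₁ * Nf K d))) =
          Nf K b / (Nf K (s' ⊔ κ₃) * Nf K s'' * Nf K c₁) := by
        field_simp
      rw [h4, ← hNs', mul_div_assoc', div_le_div_iff₀ (by
        rw [hNs']
        positivity) p5]
      calc Nf K b * Nf K κ = Nf K s * Nf K k := by rw [← hNb]; ring
        _ = Nf K se * Nf K s' * (Nf K e * Nf K k') := by rw [hNk, hNs]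
        _ ≤ Nf K se * Nf K s' * (Nf K e * (Nf K c₁ * Nf K k.radical)) := by
            have : 0 ≤ Nf K s' := by rw [hNs']; positivity
            gcongr
        _ = _ := by ring
    have h5 : 0 ≤ Nf K d / Nf K (s' ⊔ κ₃) := by positivity
    calc Nf K d / Nf K (s' ⊔ κ₃) * ∑ j ∈ I' with dj j = d, P j ≤
          Nf K d / Nf K (s' ⊔ κ₃) *
            (C * (Nf K b / Nf K (s'' * (c₁ * d)) * D) / (PP α * PP G)) :=
          mul_le_mul_of_nonneg_left h2 h5
      _ = C * (D * (Nf K d / Nf K (s' ⊔ κ₃) * (Nf K b / Nf K (s'' * (c₁ * d))))) /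
          (PP α * PP G) := by ring
      _ ≤ _ := by
          refine div_le_div_of_nonneg_right ?_ hPP.le
          exact mul_le_mul_of_nonneg_left (mul_le_mul_of_nonneg_left h3 hD) (by linarith)
  refine (Finset.sum_le_sum hfib).trans ?_
  rw [Finset.sum_const, nsmul_eq_mul]
  have hcardle : ((I'.image dj).card : ℝ) ≤ (dvs K s).card := by
    norm_cast
    refine Finset.card_le_card fun d hd => ?_
    obtain ⟨j, _, rfl⟩ := Finset.mem_image.mp hd
    refine mem_dvs hs0 ?_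
    rw [hdj]
    have : s ≤ s' := by
      rw [hss]
      exact Ideal.mul_le_right
    exact this.trans (le_sup_left.trans le_sup_left)
  have hX : 0 ≤ C * (D * (Nf K k.radical * (Nf K e * Nf K se / Nf K κ))) / (PP α * PP G) := by
    have q : ∀ a : Ideal (𝓞 K), 0 ≤ Nf K a := fun a => by unfold Nf; exact Nat.cast_nonneg _
    have q1 := q k.radical
    have q2 := q e
    have q3 := q se
    have q4 := q κ
    have q5 : 0 ≤ C := by linarith
    have q6 := hPP.le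
    positivity
  calc ((I'.image dj).card : ℝ) *
        (C * (D * (Nf K k.radical * (Nf K e * Nf K se / Nf K κ))) / (PP α * PP G)) ≤
        (dvs K s).card *
        (C * (D * (Nf K k.radical * (Nf K e * Nf K se / Nf K κ))) / (PP α * PP G)) :=
        mul_le_mul_of_nonneg_right hcardle hX
    _ = _ := by ring

end Pool.Agent.H33.DF.SM
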