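import Pool.Agent.H61.DF.Targets
import Pool.Agent.H34.DF.NF2

/-!
# Almost all `L`-functions are small, real quadratic fields (CO2r)
helper33, adapted from H69/FC/NC2
-/

set_option autoImplicit false

open MeasureTheory Set Filter NumberField
open scoped Real nonZeroDivisors

namespace Pool.Agent.H33.DF

open Pool.Agent.H31.CN Pool.Agent.H89.FM Pool.Agent.H61.FM Pool.Agent.H89.FC Pool.Agent.H89.DF
  Pool.Agent.H61.DF
open Pool.Agent.H34.DF (nf2_level_pos nf2_fam_sub)

theorem pf_CO2r (hFM2 : T_FM2r) : T_CO2r := by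
  classical
  intro ε hε
  obtain ⟨C₁, A, hC₁, h⟩ := hFM2 ε hε
  have h4 : (4 : ℝ) ^ (-ε) < 1 := Real.rpow_lt_one_of_one_lt_of_neg (by norm_num) (by linarith)
  have h40 : 0 < (4 : ℝ) ^ (-ε) := by positivity
  have h41 : 0 < 1 - (4 : ℝ) ^ (-ε) := by linarith
  refine ⟨16 * C₁ / (1 - 4 ^ (-ε)), A, div_pos (by positivity) h41, ?_⟩
  intro X₀ V η K _ _ σ σ' S₀ f κ ν F hX₀ hη0 hη1 hF₀ hS₀
  obtain ⟨C, hC⟩ : ∃ C, C = 16 * C₁ / (1 - (4 : ℝ) ^ (-ε)) := ⟨_, rfl⟩
  rw [← hC]
  have hC0 : 0 < C := by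
    rw [hC]
    exact div_pos (by positivity) h41
  have hCe : 16 * C₁ + C * (4 : ℝ) ^ (-ε) = C := by
    have h5 : C * (1 - (4 : ℝ) ^ (-ε)) = 16 * C₁ := by
      rw [hC]
      exact div_mul_cancel₀ _ h41.ne'
    linarith
  -- one dyadic range
  have one : ∀ (X : ℝ) (S : Finset (IXr K)), 1 ≤ X → Famr K σ σ' S f κ ν F 0 X V →
      (∀ y ∈ S, X / 4 ≤ lvr f y) →
      (∀ y ∈ S, ∃ t : ℝ,
        (1 + |t| + |ν y|) ^ A * lvr f y ^ η <
          ‖F y (1 / 2 + t * Complex.I)‖) →
      (S.card : ℝ) ≤ 8 * C₁ * X ^ (3 / 2 - 4 * η + ε) := by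
    intro X S hX hF hXD hS
    have hX0 : 0 < X := by linarith
    have hex : ∀ y : IXr K, ∃ t : ℝ, y ∈ S →
        (1 + |t| + |ν y|) ^ A * lvr f y ^ η <
          ‖F y (1 / 2 + t * Complex.I)‖ := by
      intro y
      by_cases hy : y ∈ S
      · obtain ⟨t, h1⟩ := hS y hy
        exact ⟨t, fun _ => h1⟩
      · exact ⟨0, fun h1 => absurd h1 hy⟩
    choose t ht using hex
    have h1 := h X V K σ σ' S f κ ν F t hX hF
    have h2 : ∀ y ∈ S, X ^ (4 * η) / 8 ≤
        (‖F y (1 / 2 + t y * Complex.I)‖ / (1 + |t y| + |ν y|) ^ A) ^ 4 := by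
      intro y hy
      have hD0 : (0 : ℝ) < lvr f y := by
        have := hXD y hy
        linarith
      have h5 : lvr f y ^ η ≤
          ‖F y (1 / 2 + t y * Complex.I)‖ / (1 + |t y| + |ν y|) ^ A := by
        rw [le_div_iff₀ (by positivity), mul_comm]
        exact (ht y hy).le
      have h6 := pow_le_pow_left₀ (by positivity) h5 4
      refine le_trans ?_ h6
      rw [← Real.rpow_natCast (lvr f y ^ η), ← Real.rpow_mul hD0.le]
      have h7 : η * ((4 : ℕ) : ℝ) = 4 * η := by
        push_cast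
        ring
      rw [h7]
      have h8 : (X / 4) ^ (4 * η) ≤ lvr f y ^ (4 * η) :=
        Real.rpow_le_rpow (by positivity) (hXD y hy) (by linarith)
      refine le_trans ?_ h8
      rw [Real.div_rpow hX0.le (by norm_num)]
      refine div_le_div_of_nonneg_left (by positivity) (by positivity) ?_
      have h9 : (4 : ℝ) ^ (4 * η) ≤ (4 : ℝ) ^ (3 / 2 : ℝ) :=
        Real.rpow_le_rpow_of_exponent_le (by norm_num) (by linarith)
      refine h9.trans (le_of_eq ?_)
      rw [show (4 : ℝ) = 2 ^ (2 : ℝ) by norm_num, ← Real.rpow_mul (by norm_num)]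
      norm_num
    have h3 := (Finset.sum_le_sum h2).trans h1
    rw [Finset.sum_const, nsmul_eq_mul] at h3
    have h5 : X ^ (3 / 2 + ε) = X ^ (3 / 2 - 4 * η + ε) * X ^ (4 * η) := by
      rw [← Real.rpow_add hX0]
      congr 1
      ring
    rw [h5] at h3
    have h6 : 0 < X ^ (4 * η) := by positivity
    refine le_of_mul_le_mul_right ?_ h6
    linarith
  have key : ∀ m : ℕ, ∀ (X : ℝ) (S : Finset (IXr K)), 1 ≤ X → X ≤ 4 ^ m → Famr K σ σ' S f κ ν F 0 X V →
      (∀ y ∈ S, ∃ t : ℝ,
        (1 + |t| + |ν y|) ^ A * lvr f y ^ η <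
          ‖F y (1 / 2 + t * Complex.I)‖) →
      (S.card : ℝ) ≤ C * X ^ (3 / 2 - 4 * η + ε) := by
    intro m
    induction m with
    | zero =>
      intro X S hX hX1 hF hS
      rw [pow_zero] at hX1
      have hX2 : 0 < X ^ (3 / 2 - 4 * η + ε) := by positivity
      have h1 := one X S hX hF (fun y hy => by
        have h3 := nf2_level_pos hF y hy
        linarith) hS
      refine h1.trans (mul_le_mul_of_nonneg_right ?_ hX2.le)
      have := mul_pos hC0 h40
      linarith
    | succ m ih =>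
      intro X S hX hXm hF hS
      have hX0 : 0 < X := by linarith
      have hX2 : 0 < X ^ (3 / 2 - 4 * η + ε) := by positivity
      have hcard : (S.card : ℝ) =
          ((S.filter fun y : IXr K => X / 4 ≤ lvr f y).card : ℝ) +
          ((S.filter fun y : IXr K => ¬ X / 4 ≤ lvr f y).card : ℝ) := by
        have h1 := Finset.card_filter_add_card_filter_not (s := S)
          (fun y : IXr K => X / 4 ≤ lvr f y)
        exact_mod_cast h1.symm
      have h1 := one X (S.filter fun y : IXr K => X / 4 ≤ lvr f y) hX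
        (nf2_fam_sub hF (fun y hy => (Finset.mem_filter.1 hy).1)
          fun y hy => hF.q y (Finset.mem_filter.1 hy).1)
        (fun y hy => (Finset.mem_filter.1 hy).2) (fun y hy => hS y (Finset.mem_filter.1 hy).1)
      have h2 : ((S.filter fun y : IXr K => ¬ X / 4 ≤ lvr f y).card : ℝ) ≤
          C * (4 : ℝ) ^ (-ε) * X ^ (3 / 2 - 4 * η + ε) := by
        by_cases h3 : X < 4
        · have h4 : (S.filter fun y : IXr K => ¬ X / 4 ≤ lvr f y) = ∅ := by
            rw [Finset.filter_eq_empty_iff]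
            intro y hy h5
            have h6 := nf2_level_pos hF y hy
            apply h5
            linarith
          rw [h4, Finset.card_empty, Nat.cast_zero]
          positivity
        · push Not at h3
          have h4 := ih (X / 4)
            (S.filter fun y : IXr K => ¬ X / 4 ≤ lvr f y) (by linarith)
            (by rw [pow_succ] at hXm; linarith)
            (nf2_fam_sub hF (fun y hy => (Finset.mem_filter.1 hy).1) fun y hy => by
              obtain ⟨h5, h6⟩ := Finset.mem_filter.1 hy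
              exact ⟨(hF.q y h5).1, by linarith [not_le.1 h6]⟩)
            (fun y hy => hS y (Finset.mem_filter.1 hy).1)
          refine h4.trans ?_
          rw [Real.div_rpow hX0.le (by norm_num), mul_assoc]
          refine mul_le_mul_of_nonneg_left ?_ hC0.le
          rw [div_eq_mul_inv, mul_comm, ← Real.rpow_neg (by norm_num)]
          refine mul_le_mul_of_nonneg_right ?_ hX2.le
          exact Real.rpow_le_rpow_of_exponent_le (by norm_num) (by linarith)
      rw [hcard]
      have h3 : 8 * C₁ * X ^ (3 / 2 - 4 * η + ε) ≤ 16 * C₁ * X ^ (3 / 2 - 4 * η + ε) :=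
        mul_le_mul_of_nonneg_right (by linarith) hX2.le
      calc _ ≤ 16 * C₁ * X ^ (3 / 2 - 4 * η + ε) +
            C * (4 : ℝ) ^ (-ε) * X ^ (3 / 2 - 4 * η + ε) := by
            linarith
        _ = (16 * C₁ + C * (4 : ℝ) ^ (-ε)) * X ^ (3 / 2 - 4 * η + ε) := by ring
        _ = C * X ^ (3 / 2 - 4 * η + ε) := by rw [hCe]
  obtain ⟨m, hm⟩ := pow_unbounded_of_one_lt X₀ (show (1 : ℝ) < 4 by norm_num)
  exact key m X₀ S₀ hX₀ hm.le hF₀ hS₀

end Pool.Agent.H33.DF
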